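import Pool.Agent.Y600.DC.Stm

/-!
# Project DC: good colourings of balanced hypergraphs from 2-colourings (job DC-GOOD, Berge)
-/

set_option autoImplicit false

namespace Pool.Agent.Y569.DC

open Pool.Agent.Y600.DC Finset

theorem good : S_BICOL → S_GOOD := by
  intro hB I V _ _ R hR m hm hsz
  classical
  have := Fintype.ofFinite I
  have := Fintype.ofFinite V
  have : NeZero m := ⟨by omega⟩
  set U : (V → Fin m) → I → Finset (Fin m) :=
    fun c i => univ.filter (fun b => ∃ x, R i x ∧ c x = b) with hU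
  have mU : ∀ c i b, b ∈ U c i ↔ ∃ x, R i x ∧ c x = b := by
    intro c i b
    simp [hU]
  obtain ⟨c, hc⟩ := Finite.exists_max (fun c : V → Fin m => ∑ i, (U c i).card)
  refine ⟨c, ?_⟩
  by_contra hcon
  push Not at hcon
  obtain ⟨i0, b, hb0⟩ := hcon
  -- two vertices of the edge with the same colour
  have hcard : ((univ : Finset (Fin m)).erase b).card <
      ((univ : Finset V).filter (fun x => R i0 x)).card := by
    have h1 : ((univ : Finset (Fin m)).erase b).card = m - 1 := by
      rw [card_erase_of_mem (mem_univ b), card_univ, Fintype.card_fin]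
    have h2 : {x | R i0 x}.ncard = ((univ : Finset V).filter (fun x => R i0 x)).card := by
      rw [← Set.ncard_coe_finset]
      congr 1
      ext x
      simp
    have := hsz i0
    omega
  obtain ⟨x, hx, y, hy, hxy, hcxy⟩ := exists_ne_map_eq_of_card_lt_of_maps_to hcard
    (f := c) (by
      intro z hz
      have hz' : R i0 z := by simpa using hz
      simp [hb0 z hz'])
  have hx' : R i0 x := by simpa using hx
  have hy' : R i0 y := by simpa using hy
  set a := c x with ha
  have hab : a ≠ b := hb0 x hx'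
  set W : Finset V := univ.filter (fun z => c z = a ∨ c z = b) with hW
  have mW : ∀ z, z ∈ W ↔ (c z = a ∨ c z = b) := by
    intro z
    simp [hW]
  obtain ⟨d, hd⟩ := hB I V R hR W
  set c' : V → Fin m := fun z => if c z = a ∨ c z = b then (if d z = true then a else b) else c z
    with hc'
  have c'W : ∀ z, z ∈ W → c' z = if d z = true then a else b := by
    intro z hz
    simp only [hc']
    rw [if_pos ((mW z).1 hz)]
  have c'ab : ∀ z, z ∈ W → c' z = a ∨ c' z = b := by
    intro z hz
    rw [c'W z hz]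
    split_ifs
    · exact Or.inl rfl
    · exact Or.inr rfl
  have c'n : ∀ z, z ∉ W → c' z = c z := by
    intro z hz
    simp only [hc']
    rw [if_neg (fun h => hz ((mW z).2 h))]
  have two : ∀ i, (∃ x ∈ W, ∃ y ∈ W, x ≠ y ∧ R i x ∧ R i y) →
      a ∈ U c' i ∧ b ∈ U c' i ∧ U c i ⊆ U c' i := by
    intro i hi
    have h1 : a ∈ U c' i := by
      obtain ⟨z, hz, hz1, hz2⟩ := hd i hi true
      exact (mU _ _ _).2 ⟨z, hz1, by rw [c'W z hz, if_pos hz2]⟩
    have h2 : b ∈ U c' i := by
      obtain ⟨z, hz, hz1, hz2⟩ := hd i hi false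
      exact (mU _ _ _).2 ⟨z, hz1, by rw [c'W z hz, if_neg (by simp [hz2])]⟩
    refine ⟨h1, h2, ?_⟩
    intro e he
    obtain ⟨z, hz1, hz2⟩ := (mU _ _ _).1 he
    by_cases hz : z ∈ W
    · rcases (mW z).1 hz with h | h
      · rw [← hz2, h]; exact h1
      · rw [← hz2, h]; exact h2
    · exact (mU _ _ _).2 ⟨z, hz1, by rw [c'n z hz, hz2]⟩
  have key : ∀ i, (U c i).card ≤ (U c' i).card := by
    intro i
    by_cases hi : ∃ x ∈ W, ∃ y ∈ W, x ≠ y ∧ R i x ∧ R i y
    · exact card_le_card (two i hi).2.2
    · by_cases h1 : ∃ z ∈ W, R i z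
      · obtain ⟨z, hz, hz1⟩ := h1
        have huniq : ∀ w ∈ W, R i w → w = z := by
          intro w hw hw1
          by_contra hne
          exact hi ⟨w, hw, z, hz, hne, hw1, hz1⟩
        have hzU : c' z ∈ U c' i := (mU _ _ _).2 ⟨z, hz1, rfl⟩
        have hsub : U c i ⊆ insert (c z) ((U c' i).erase (c' z)) := by
          intro e he
          obtain ⟨w, hw1, hw2⟩ := (mU _ _ _).1 he
          by_cases hw : w ∈ W
          · rw [huniq w hw hw1] at hw2
            rw [← hw2]
            exact mem_insert_self _ _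
          · apply mem_insert_of_mem
            rw [mem_erase]
            refine ⟨?_, (mU _ _ _).2 ⟨w, hw1, by rw [c'n w hw, hw2]⟩⟩
            intro h
            apply hw
            rw [mW, hw2, h]
            exact c'ab z hz
        calc (U c i).card ≤ (insert (c z) ((U c' i).erase (c' z))).card := card_le_card hsub
          _ ≤ ((U c' i).erase (c' z)).card + 1 := card_insert_le _ _
          _ = (U c' i).card := by
            rw [card_erase_of_mem hzU]
            have : 0 < (U c' i).card := card_pos.2 ⟨_, hzU⟩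
            omega
      · push Not at h1
        apply card_le_card
        intro e he
        obtain ⟨w, hw1, hw2⟩ := (mU _ _ _).1 he
        have hw : w ∉ W := fun hw => h1 w hw hw1
        exact (mU _ _ _).2 ⟨w, hw1, by rw [c'n w hw, hw2]⟩
  have hi0 : ∃ x ∈ W, ∃ y ∈ W, x ≠ y ∧ R i0 x ∧ R i0 y :=
    ⟨x, (mW x).2 (Or.inl rfl), y, (mW y).2 (Or.inl hcxy.symm), hxy, hx', hy'⟩
  have hlt : (U c i0).card < (U c' i0).card := by
    apply card_lt_card
    obtain ⟨h1, h2, h3⟩ := two i0 hi0
    refine ⟨h3, fun h => ?_⟩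
    obtain ⟨z, hz1, hz2⟩ := (mU _ _ _).1 (h h2)
    exact hb0 z hz1 hz2
  have := hc c'
  have h2 : ∑ i, (U c i).card < ∑ i, (U c' i).card :=
    sum_lt_sum (fun i _ => key i) ⟨i0, mem_univ _, hlt⟩
  exact absurd this (not_le.2 h2)

end Pool.Agent.Y569.DC
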