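import Pool.Agent.Y600.DC.Stm

/-!
# Project DC: the multiplicative weights inequality (job DC-MWU)
-/

set_option autoImplicit false

namespace Pool.Agent.Y569.DC

open Pool.Agent.Y600.DC Finset

open Classical in
theorem cnt_succ {n : ℕ} (G : SimpleGraph (Fin n)) (pick : ℕ → Fin n) (t : ℕ) (w : Fin n) :
    cnt G pick (t + 1) w = cnt G pick t w + (if Close G w (pick t) then 1 else 0) := by
  unfold cnt
  rw [Finset.range_add_one, Finset.filter_insert]
  split_ifs with h
  · rw [Finset.card_insert_of_notMem (by simp)]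
  · rfl

theorem cnt_le {n : ℕ} (G : SimpleGraph (Fin n)) (pick : ℕ → Fin n) (t : ℕ) (w : Fin n) :
    cnt G pick t w ≤ t := by
  classical
  unfold cnt
  exact (Finset.card_filter_le _ _).trans (by rw [Finset.card_range])

/-- the potential -/
noncomputable def phi {n : ℕ} (q : ℝ) (G : SimpleGraph (Fin n)) (pick : ℕ → Fin n) (t : ℕ) : ℝ :=
  ∑ w, q ^ cnt G pick t w

open Classical in
/-- the weight of a closed neighbourhood -/
noncomputable def ell {n : ℕ} (q : ℝ) (G : SimpleGraph (Fin n)) (pick : ℕ → Fin n) (t : ℕ)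
    (u : Fin n) : ℝ :=
  ∑ w ∈ univ.filter (fun w => Close G w u), q ^ cnt G pick t w

theorem load_eq {n : ℕ} (G : SimpleGraph (Fin n)) (pick : ℕ → Fin n) (t : ℕ) (u : Fin n) :
    (load G pick t u : ℝ) =
      (2 * (n : ℝ) + 2) ^ t * ell ((2 * (n : ℝ) + 1) / (2 * n + 2)) G pick t u := by
  classical
  unfold load ell
  rw [Finset.mul_sum]
  push_cast
  apply Finset.sum_congr rfl
  intro w _
  have h := cnt_le G pick t w
  have hN : (2 * (n : ℝ) + 2) ≠ 0 := by positivity
  rw [div_pow]
  generalize cnt G pick t w = c at h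
  obtain ⟨k, hk⟩ := Nat.exists_eq_add_of_le h
  have h2 : t - c = k := by omega
  rw [h2, hk, pow_add]
  field_simp

theorem phi_succ {n : ℕ} (q : ℝ) (G : SimpleGraph (Fin n)) (pick : ℕ → Fin n) (t : ℕ) :
    phi q G pick (t + 1) = phi q G pick t - (1 - q) * ell q G pick t (pick t) := by
  classical
  unfold phi ell
  rw [Finset.sum_filter, Finset.mul_sum, ← Finset.sum_sub_distrib]
  apply Finset.sum_congr rfl
  intro w _
  rw [cnt_succ]
  split_ifs with h
  · rw [pow_succ]; ring
  · simp

theorem mwu : S_MWU := by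
  intro n G pick hgr D hD v
  classical
  have hn : 0 < n := Fin.pos v
  have hn1 : (1 : ℝ) ≤ n := by exact_mod_cast hn
  set T := rounds n with hT
  set N : ℝ := 2 * (n : ℝ) + 2 with hN
  have hNpos : 0 < N := by positivity
  set q : ℝ := (2 * (n : ℝ) + 1) / N with hq
  have hqpos : 0 < q := by positivity
  have h1q : 1 - q = 1 / N := by
    rw [hq]
    field_simp
    ring
  -- the dominating set is nonempty
  have hdom : ∀ w, ∃ u ∈ D, Close G w u := by
    intro w
    by_cases hw : w ∈ D
    · exact ⟨w, hw, Or.inl rfl⟩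
    · obtain ⟨u, hu, h⟩ := hD w hw
      exact ⟨u, hu, Or.inr h⟩
  have hDpos : 0 < D.card := by
    obtain ⟨u, hu, _⟩ := hdom v
    exact Finset.card_pos.2 ⟨u, hu⟩
  have hDn : D.card ≤ n := by
    have := Finset.card_le_univ D
    rwa [Fintype.card_fin] at this
  set g : ℝ := (D.card : ℝ) with hg
  have hgpos : 0 < g := by rw [hg]; exact_mod_cast hDpos
  have hg1 : (1 : ℝ) ≤ g := by rw [hg]; exact_mod_cast hDpos
  have hgn : g ≤ n := by rw [hg]; exact_mod_cast hDn
  have hellnn : ∀ t u, 0 ≤ ell q G pick t u := by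
    intro t u
    unfold ell
    exact Finset.sum_nonneg (fun w _ => by positivity)
  have hgreedy : ∀ t < T, ∀ u, ell q G pick t u ≤ ell q G pick t (pick t) := by
    intro t ht u
    have h := hgr t ht u
    have h2 : (load G pick t u : ℝ) ≤ (load G pick t (pick t) : ℝ) := by exact_mod_cast h
    rw [load_eq, load_eq] at h2
    exact le_of_mul_le_mul_left h2 (by positivity)
  have hphile : ∀ t < T, phi q G pick t ≤ g * ell q G pick t (pick t) := by
    intro t ht
    calc phi q G pick t ≤ ∑ w, ∑ u ∈ D, (if Close G w u then q ^ cnt G pick t w else 0) := by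
          unfold phi
          apply Finset.sum_le_sum
          intro w _
          obtain ⟨u, hu, hwu⟩ := hdom w
          have h1 : (if Close G w u then q ^ cnt G pick t w else 0) ≤
              ∑ u ∈ D, (if Close G w u then q ^ cnt G pick t w else 0) :=
            Finset.single_le_sum (f := fun u => if Close G w u then q ^ cnt G pick t w else 0)
              (fun u _ => by
                show (0 : ℝ) ≤ if Close G w u then q ^ cnt G pick t w else 0
                split_ifs
                · positivity
                · exact le_refl _) hu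
          rw [if_pos hwu] at h1
          exact h1
      _ = ∑ u ∈ D, ell q G pick t u := by
          rw [Finset.sum_comm]
          apply Finset.sum_congr rfl
          intro u _
          unfold ell
          rw [Finset.sum_filter]
      _ ≤ ∑ _u ∈ D, ell q G pick t (pick t) := Finset.sum_le_sum (fun u _ => hgreedy t ht u)
      _ = g * ell q G pick t (pick t) := by rw [Finset.sum_const, nsmul_eq_mul]
  have hstep : ∀ t ≤ T, phi q G pick t ≤ n * Real.exp (-(t : ℝ) / (N * g)) := by
    intro t
    induction t with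
    | zero =>
      intro _
      have : phi q G pick 0 = n := by
        unfold phi cnt
        simp
      rw [this]
      simp
    | succ t ih =>
      intro ht
      have h1 := ih (by omega)
      have h2 := hphile t (by omega)
      rw [phi_succ, h1q]
      have h3 : phi q G pick t / g ≤ ell q G pick t (pick t) := by
        rw [div_le_iff₀ hgpos]
        linarith
      have h4 : phi q G pick t - 1 / N * ell q G pick t (pick t) ≤
          phi q G pick t * (1 - 1 / (N * g)) := by
        have : 1 / N * (phi q G pick t / g) ≤ 1 / N * ell q G pick t (pick t) :=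
          mul_le_mul_of_nonneg_left h3 (by positivity)
        have h5 : phi q G pick t * (1 - 1 / (N * g)) =
            phi q G pick t - 1 / N * (phi q G pick t / g) := by
          field_simp
        rw [h5]
        linarith
      have h6 : 1 - 1 / (N * g) ≤ Real.exp (-(1 / (N * g))) := by
        have := Real.add_one_le_exp (-(1 / (N * g)))
        linarith
      have hphinn : 0 ≤ phi q G pick t := by
        unfold phi
        exact Finset.sum_nonneg (fun w _ => by positivity)
      calc phi q G pick t - 1 / N * ell q G pick t (pick t)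
          ≤ phi q G pick t * (1 - 1 / (N * g)) := h4
        _ ≤ phi q G pick t * Real.exp (-(1 / (N * g))) := mul_le_mul_of_nonneg_left h6 hphinn
        _ ≤ (n * Real.exp (-(t : ℝ) / (N * g))) * Real.exp (-(1 / (N * g))) :=
            mul_le_mul_of_nonneg_right h1 (Real.exp_pos _).le
        _ = n * Real.exp (-((t + 1 : ℕ) : ℝ) / (N * g)) := by
            rw [mul_assoc, ← Real.exp_add]
            congr 2
            push_cast
            ring
  have hTb := hstep T le_rfl
  set c := cnt G pick T v with hc
  have hqc : q ^ c ≤ phi q G pick T := by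
    unfold phi
    exact Finset.single_le_sum (f := fun w => q ^ cnt G pick T w)
      (fun w _ => by positivity) (Finset.mem_univ v)
  have hlogq : -(1 / (2 * (n : ℝ) + 1)) ≤ Real.log q := by
    have h1 : Real.log (N / (2 * n + 1)) ≤ N / (2 * n + 1) - 1 :=
      Real.log_le_sub_one_of_pos (by positivity)
    have h2 : Real.log q = -Real.log (N / (2 * n + 1)) := by
      rw [← Real.log_inv, inv_div]
    have h3 : N / (2 * (n : ℝ) + 1) - 1 = 1 / (2 * n + 1) := by
      rw [hN]
      field_simp
      ring
    rw [h2]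
    linarith
  have hlog : -((c : ℝ) / (2 * n + 1)) ≤ Real.log n + -(T : ℝ) / (N * g) := by
    have h1 : Real.log (q ^ c) ≤ Real.log (n * Real.exp (-(T : ℝ) / (N * g))) :=
      Real.log_le_log (by positivity) (hqc.trans hTb)
    rw [Real.log_pow, Real.log_mul (by positivity) (Real.exp_pos _).ne', Real.log_exp] at h1
    have h2 : (c : ℝ) * (-(1 / (2 * (n : ℝ) + 1))) ≤ c * Real.log q :=
      mul_le_mul_of_nonneg_left hlogq (by positivity)
    have h3 : (c : ℝ) * (-(1 / (2 * (n : ℝ) + 1))) = -((c : ℝ) / (2 * n + 1)) := by ring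
    linarith
  have hlogn : Real.log n ≤ n := by
    have := Real.log_le_sub_one_of_pos (show (0 : ℝ) < n by linarith)
    linarith
  by_contra hcon
  push Not at hcon
  have hcon' : (g + 1) * (c : ℝ) ≤ T := by
    have : (((D.card + 1) * c : ℕ) : ℝ) ≤ (T : ℝ) := by exact_mod_cast hcon
    push_cast at this
    exact this
  have hTv : (T : ℝ) = 8 * ((n : ℝ) + 1) ^ 4 := by
    rw [hT]
    unfold rounds
    push_cast
    ring
  have hTpos : (0 : ℝ) < T := by rw [hTv]; positivity
  -- c / (2n+1) ≤ T / ((g+1)(2n+1))
  have h1 : (c : ℝ) / (2 * n + 1) ≤ T / ((g + 1) * (2 * n + 1)) := by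
    rw [div_le_div_iff₀ (by positivity) (by positivity)]
    nlinarith [mul_le_mul_of_nonneg_right hcon' (show (0 : ℝ) ≤ 2 * n + 1 by positivity)]
  have h2 : (T : ℝ) / (N * g) - T / ((g + 1) * (2 * n + 1)) ≤ n := by
    have : -(T : ℝ) / (N * g) = -(T / (N * g)) := by ring
    rw [this] at hlog
    linarith
  have h3 : (T : ℝ) / (N * g) - T / ((g + 1) * (2 * n + 1)) =
      T * (2 * n + 1 - g) / (N * g * ((g + 1) * (2 * n + 1))) := by
    rw [hN]
    field_simp
    ring
  rw [h3, div_le_iff₀ (by positivity)] at h2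
  have h4 : (T : ℝ) * (n + 1) ≤ T * (2 * n + 1 - g) :=
    mul_le_mul_of_nonneg_left (by linarith) hTpos.le
  have h5 : (n : ℝ) * (N * g * ((g + 1) * (2 * n + 1))) ≤
      n * ((2 * n + 2) * n * ((n + 1) * (2 * n + 1))) := by
    rw [hN]
    apply mul_le_mul_of_nonneg_left _ (by linarith)
    apply mul_le_mul
    · exact mul_le_mul_of_nonneg_left hgn (by positivity)
    · exact mul_le_mul_of_nonneg_right (by linarith) (by positivity)
    · positivity
    · positivity
  have h6 : (T : ℝ) * (n + 1) ≤ n * ((2 * n + 2) * n * ((n + 1) * (2 * n + 1))) :=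
    h4.trans (h2.trans h5)
  rw [hTv] at h6
  have h7 : (n : ℝ) * ((2 * n + 2) * n * ((n + 1) * (2 * n + 1))) ≤ 4 * ((n : ℝ) + 1) ^ 4 * (n + 1) := by
    have e1 : (n : ℝ) * ((2 * n + 2) * n * ((n + 1) * (2 * n + 1))) =
        (n * n * (2 * n + 1)) * (2 * ((n : ℝ) + 1) ^ 2) := by ring
    have e2 : 4 * ((n : ℝ) + 1) ^ 4 * (n + 1) = (2 * ((n : ℝ) + 1) ^ 3) * (2 * ((n : ℝ) + 1) ^ 2) := by
      ring
    rw [e1, e2]
    apply mul_le_mul_of_nonneg_right _ (by positivity)
    nlinarith [hn1, mul_pos (show (0 : ℝ) < n by linarith) (show (0 : ℝ) < n by linarith)]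
  have h8 : (0 : ℝ) < ((n : ℝ) + 1) ^ 4 * (n + 1) := by positivity
  nlinarith

end Pool.Agent.Y569.DC
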