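import Pool.Agent.Y600.DC.Stm

/-!
# Project DC: rounding by colouring copies (job DC-ROUND)
-/

set_option autoImplicit false

namespace Pool.Agent.Y569.DC

open Pool.Agent.Y600.DC Finset

theorem round : S_GOOD → S_ROUND := by
  intro hG I V _ _ R hR a m hm hsz
  classical
  have hR' : RelBalanced (fun (i : I) (p : Σ x : V, Fin (a x)) => R i p.1) := by
    intro k hk hk3 e x hx h
    refine hR k hk hk3 e (fun j => (x j).1) ?_ (fun i j => h i j)
    intro j l hjl
    have hjl' : (x j).1 = (x l).1 := hjl
    have h1 : ∀ i, (j = i ∨ j = i + 1) ↔ (l = i ∨ l = i + 1) := by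
      intro i
      rw [← h i j, ← h i l]
      show R (e i) (x j).1 ↔ R (e i) (x l).1
      rw [hjl']
    have hne2 : (2 : ZMod k) ≠ 0 := by
      intro h0
      have h2 : ((2 : ℕ) : ZMod k) = 0 := by exact_mod_cast h0
      rw [ZMod.natCast_eq_zero_iff] at h2
      exact absurd (Nat.le_of_dvd (by norm_num) h2) (by omega)
    have hne1 : (1 : ZMod k) ≠ 0 := by
      intro h0
      have h2 : ((1 : ℕ) : ZMod k) = 0 := by exact_mod_cast h0
      rw [ZMod.natCast_eq_zero_iff] at h2
      exact absurd (Nat.le_of_dvd (by norm_num) h2) (by omega)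
    rcases (h1 j).1 (Or.inl rfl) with h2 | h2
    · exact h2.symm
    · exfalso
      rcases (h1 (j - 1)).1 (Or.inr (by ring)) with h3 | h3
      · apply hne2
        have : j + 1 = j - 1 := h2.symm.trans h3
        calc (2 : ZMod k) = (j + 1) - (j - 1) := by ring
          _ = 0 := by rw [this]; ring
      · apply hne1
        have : j + 1 = j - 1 + 1 := h2.symm.trans h3
        calc (1 : ZMod k) = (j + 1) - (j - 1 + 1) := by ring
          _ = 0 := by rw [this]; ring
  have hsz' : ∀ i, m ≤ {p : Σ x : V, Fin (a x) | R i p.1}.ncard := by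
    intro i
    have h1 : {p : Σ x : V, Fin (a x) | R i p.1} =
        (((univ.filter (fun x => R i x)).sigma (fun x => (univ : Finset (Fin (a x))))) :
          Finset (Σ x : V, Fin (a x))) := by
      ext p
      simp
    rw [h1, Set.ncard_coe_finset, card_sigma]
    simpa using hsz i
  obtain ⟨c, hc⟩ := hG I (Σ x : V, Fin (a x)) _ hR' m hm hsz'
  set D : Fin m → Finset V := fun b => (univ.filter (fun p => c p = b)).image (fun p => p.1) with hD
  have hmeet : ∀ b i, ∃ x ∈ D b, R i x := by
    intro b i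
    obtain ⟨p, hp1, hp2⟩ := hc i b
    refine ⟨p.1, ?_, hp1⟩
    simp only [hD, mem_image, mem_filter, mem_univ, true_and]
    exact ⟨p, hp2, rfl⟩
  have hsum : ∑ b, (D b).card ≤ ∑ x, a x := by
    calc ∑ b, (D b).card ≤ ∑ b, (univ.filter (fun p => c p = b)).card :=
          sum_le_sum (fun b _ => card_image_le)
      _ = (univ : Finset (Σ x : V, Fin (a x))).card :=
          (card_eq_sum_card_fiberwise (fun p _ => mem_coe.2 (mem_univ (c p)))).symm
      _ = ∑ x, a x := by rw [card_univ, Fintype.card_sigma]; simp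
  have hex : ∃ b, m * (D b).card ≤ ∑ x, a x := by
    by_contra hcon
    push Not at hcon
    have hne : (univ : Finset (Fin m)).Nonempty := ⟨⟨0, by omega⟩, mem_univ _⟩
    have h1 : ∑ _b : Fin m, ∑ x, a x < ∑ b : Fin m, m * (D b).card :=
      sum_lt_sum_of_nonempty hne (fun b _ => hcon b)
    rw [sum_const, card_univ, Fintype.card_fin, smul_eq_mul, ← mul_sum] at h1
    exact absurd (Nat.mul_le_mul_left m hsum) (not_le.2 h1)
  obtain ⟨b, hb⟩ := hex
  exact ⟨D b, hmeet b, hb⟩

end Pool.Agent.Y569.DC
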